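import Mathlib

namespace Pool.Agent.H.MP_2c8f22_co

open Polynomial Finset

@[irreducible] noncomputable def P (a : ℕ) : (ZMod 2)[X] := ∑ i ∈ range a, if a.testBit i then X ^ i else 0

theorem coeff_P (a i : ℕ) : (P a).coeff i = if a.testBit i then 1 else 0 := by
  rw [P, finsetSum_coeff, Finset.sum_eq_single i]
  · split_ifs <;> simp
  · intro b _ hb
    split_ifs <;> simp [coeff_X_pow, hb.symm]
  · intro h
    have : a.testBit i = false :=
      Nat.testBit_lt_two_pow (lt_of_le_of_lt (by simpa using h) Nat.lt_two_pow_self)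
    simp [this]

theorem P_xor (a b : ℕ) : P (a ^^^ b) = P a + P b := by
  ext i
  simp only [coeff_add, coeff_P, Nat.testBit_xor]
  cases a.testBit i <;> cases b.testBit i <;> decide

theorem P_two (a : ℕ) : P (2 * a) = X * P a := by
  ext i
  cases i with
  | zero => simp [coeff_P]
  | succ i => rw [coeff_X_mul, coeff_P, coeff_P, Nat.testBit_succ, Nat.mul_div_cancel_left _ (by norm_num)]

theorem P_one : P 1 = 1 := by
  ext i
  cases i <;> simp [coeff_P, coeff_one, Nat.testBit_succ]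

theorem P_zero : P 0 = 0 := by ext i; simp [coeff_P]

theorem P_deg {a d : ℕ} (h : a < 2 ^ d) : (P a).degree < d := by
  rw [degree_lt_iff_coeff_zero]
  intro m hm
  rw [coeff_P, Nat.testBit_lt_two_pow (h.trans_le (Nat.pow_le_pow_right (by norm_num) hm))]
  simp

theorem P_ne {a : ℕ} (h : a ≠ 0) : P a ≠ 0 := fun e => h (Nat.eq_of_testBit_eq fun i => by
  have := coeff_P a i
  rw [e] at this
  by_contra hc
  simp only [Nat.zero_testBit, Bool.not_eq_false] at hc
  simp [hc] at this)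

theorem P_surj (g : (ZMod 2)[X]) (d : ℕ) (h : g.natDegree < d) : ∃ a < 2 ^ d, P a = g := by
  refine ⟨Nat.ofBits fun i : Fin d => decide (g.coeff i = 1), Nat.ofBits_lt_two_pow _, ?_⟩
  ext i
  rw [coeff_P, Nat.testBit_ofBits]
  split_ifs with h1 h2 h3
  · exact (of_decide_eq_true h2).symm
  · have : ∀ x : (ZMod 2), x ≠ 1 → 0 = x := by decide
    exact this _ (by simpa using h2)
  · exact absurd h3 (by simp)
  · exact (coeff_eq_zero_of_natDegree_lt (by omega)).symm

theorem two (p : (ZMod 2)[X]) : p + p = 0 := CharTwo.add_self_eq_zero p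

theorem P_top {f : ℕ} (h1 : f < 2 ^ 13) (h2 : f.testBit 12 = true) : (P f).Monic ∧ (P f).natDegree = 12 := by
  have hd : (P f).natDegree ≤ 12 :=
    Nat.lt_succ_iff.1 ((natDegree_lt_iff_degree_lt (P_ne (by rintro rfl; simp at h2))).2 (P_deg h1))
  have hc : (P f).coeff 12 = 1 := by simp [coeff_P, h2]
  exact ⟨monic_of_natDegree_le_of_coeff_eq_one 12 hd hc,
    natDegree_eq_of_le_of_coeff_ne_zero hd (by simp [hc])⟩

theorem nd {f a : ℕ} (h : (P f).natDegree = 12) (h0 : a ≠ 0) (ha : a < 2 ^ 12) : ¬ P f ∣ P a := fun e => by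
  have := natDegree_le_of_dvd e (P_ne h0)
  have := (natDegree_lt_iff_degree_lt (P_ne h0)).2 (P_deg ha)
  omega

def step (f a : ℕ) : ℕ := if a.testBit 11 then (2 * a) ^^^ f else 2 * a

theorem step_dvd (f a : ℕ) : P f ∣ X * P a + P (step f a) := by
  unfold step
  split_ifs
  · rw [P_xor, P_two, ← add_assoc, two, zero_add]
  · rw [P_two, two]; exact dvd_zero _

def mY (f a : ℕ) : ℕ := step f (step f (step f a ^^^ a)) ^^^ a

theorem mY_dvd (f a : ℕ) : P f ∣ (X ^ 3 + X ^ 2 + 1) * P a + P (mY f a) := by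
  have h1 := step_dvd f a
  have h2 := step_dvd f (step f a ^^^ a)
  have h3 := step_dvd f (step f (step f a ^^^ a))
  rw [mY, P_xor]
  rw [P_xor] at h2
  convert ((h1.mul_left (X ^ 2)).add (h2.mul_left X)).add h3 using 1
  linear_combination two (P a) - two (X ^ 2 * P (step f a)) - two (X * P (step f (step f a ^^^ a)))

theorem iter_dvd {f : ℕ} {g : ℕ → ℕ} {Y : (ZMod 2)[X]} (h : ∀ a, P f ∣ Y * P a + P (g a)) (e : ℕ) :
    P f ∣ Y ^ e + P (g^[e] 1) := by
  induction e with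
  | zero => simp [P_one, two]
  | succ e ih =>
    rw [Function.iterate_succ_apply']
    convert (ih.mul_left Y).add (h (g^[e] 1)) using 1
    linear_combination -two (Y * P (g^[e] 1))

def force (a : ℕ) (k : ℕ → ℕ × ℕ) : ℕ × ℕ := match a with
  | 0 => k 0
  | n + 1 => k (n + 1)

theorem force_eq (a : ℕ) (k : ℕ → ℕ × ℕ) : force a k = k a := by cases a <;> rfl

def run (g : ℕ → ℕ) : ℕ → ℕ → ℕ → ℕ × ℕ
  | 0, a, m => (a, m)
  | n + 1, a, m => force (g a) fun b => force (if a < 128 then m ||| 2 ^ a else m) fun l => run g n b l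

theorem run_spec (g : ℕ → ℕ) (n a m : ℕ) : (run g n a m).1 = g^[n] a ∧
    ∀ x, (run g n a m).2.testBit x = true → m.testBit x = true ∨ ∃ k ≤ n, x = g^[k] a := by
  induction n generalizing a m with
  | zero => exact ⟨rfl, fun _ h => .inl h⟩
  | succ n ih =>
    simp only [run, force_eq]
    refine ⟨(ih _ _).1, fun x h => ?_⟩
    rcases (ih _ _).2 x h with h | ⟨k, hk, e⟩
    · split_ifs at h
      · simp only [Nat.testBit_or, Bool.or_eq_true, Nat.testBit_two_pow, decide_eq_true_eq] at h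
        exact h.imp id fun e => ⟨0, by omega, e.symm⟩
      · exact .inl h
    · exact .inr ⟨k + 1, by omega, e⟩

theorem irr {f N : ℕ} (hm : (P f).Monic) (hd : (P f).natDegree = 12) 
    (h2 : run (mY f) N 1 0 = (1, 2 ^ 128 - 2)) : Irreducible (P f) := by
  obtain ⟨h1, h3⟩ := run_spec (mY f) N 1 0
  rw [h2] at h1 h3
  have key : ∀ g : (ZMod 2)[X], g.natDegree < 7 → g ∣ P f → IsUnit g := fun g hg hdvd => by
    obtain ⟨a, ha, rfl⟩ := P_surj g 7 hg
    have h0 : a ≠ 0 := by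
      rintro rfl
      rw [P_zero, zero_dvd_iff] at hdvd
      exact hm.ne_zero hdvd
    have hb : ∀ a < 2 ^ 7, a ≠ 0 → (2 ^ 128 - 2).testBit a = true := by decide +kernel
    obtain ⟨k, hk, e⟩ := (h3 a (hb a ha h0)).resolve_left (by simp)
    have d1 := hdvd.trans (iter_dvd (mY_dvd f) k)
    have d2 := hdvd.trans (iter_dvd (mY_dvd f) N)
    rw [← e, dvd_add_left dvd_rfl] at d1
    rw [← h1, P_one, dvd_add_right (d1.trans (pow_dvd_pow _ hk))] at d2
    exact isUnit_of_dvd_one d2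
  refine ⟨fun h => by simp [natDegree_eq_zero_of_isUnit h] at hd, fun a b e => ?_⟩
  have ha : a ≠ 0 := by rintro rfl; exact hm.ne_zero (by simp [e])
  have hb : b ≠ 0 := by rintro rfl; exact hm.ne_zero (by simp [e])
  have := natDegree_mul ha hb
  rw [← e, hd] at this
  by_cases h : a.natDegree < 7
  · exact .inl (key a h ⟨b, e⟩)
  · exact .inr (key b (by omega) ⟨a, by rw [e, mul_comm]⟩)

def pw (f e : ℕ) : ℕ := (run (step f) e 1 0).1

theorem pw_eq (f e : ℕ) : pw f e = (step f)^[e] 1 := (run_spec _ _ _ _).1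

theorem expo {f N : ℕ} (hd : (P f).natDegree = 12) (h1 : pw f (N + 1) = 1)
    (h2 : ∀ x ∈ List.iterate (step f) (step f 1) N, x ≠ 1 ∧ x < 2 ^ 12) :
    IsLeast {e | 1 ≤ e ∧ P f ∣ X ^ e - 1} (N + 1) := by
  refine ⟨⟨by norm_num, ?_⟩, fun e he => ?_⟩
  · have := iter_dvd (step_dvd f) (N + 1)
    rwa [← pw_eq, h1, P_one, ← CharTwo.sub_eq_add] at this
  · by_contra hc
    obtain ⟨k, rfl⟩ : ∃ k, e = k + 1 := ⟨e - 1, by have := he.1; omega⟩
    obtain ⟨a, b⟩ := h2 _ (List.mem_iterate.2 ⟨k, by omega, rfl⟩)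
    refine nd hd (a := (step f)^[k + 1] 1 ^^^ 1) (by simpa using a) (Nat.xor_lt_two_pow b (by norm_num)) ?_
    convert (iter_dvd (step_dvd f) (k + 1)).sub he.2 using 1
    rw [P_xor, P_one]; ring

theorem rel (f : ℕ) (T : List ℕ) :
    P f ∣ (T.map (X ^ ·)).sum + P (T.foldr (fun e m => pw f e ^^^ m) 0) := by
  induction T with
  | nil => simp [P_zero]
  | cons e T ih =>
    simp only [List.map_cons, List.sum_cons, List.foldr_cons, P_xor]
    convert (iter_dvd (step_dvd f) e).add ih using 1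
    rw [pw_eq]; ring

noncomputable def ev (s : ℕ → (ZMod 2)) : (ZMod 2)[X] →ₗ[(ZMod 2)] (ZMod 2) := (basisMonomials (ZMod 2)).constr (ZMod 2) s

theorem ev_X (s : ℕ → (ZMod 2)) (i : ℕ) : ev s (X ^ i) = s i := by
  have := (basisMonomials (ZMod 2)).constr_basis (ZMod 2) s i
  simpa only [ev, coe_basisMonomials, monomial_one_right_eq_X_pow] using this

def Kills (s : ℕ → (ZMod 2)) (g : (ZMod 2)[X]) : Prop := ∀ n, ev s (X ^ n * g) = 0

theorem ev_sum (s : ℕ → (ZMod 2)) (g : (ZMod 2)[X]) (n d : ℕ) (h : g.natDegree < d) :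
    ev s (X ^ n * g) = ∑ i ∈ range d, g.coeff i * s (n + i) := by
  conv_lhs => rw [g.as_sum_range_C_mul_X_pow' h, Finset.mul_sum, map_sum]
  refine Finset.sum_congr rfl fun i _ => ?_
  rw [mul_left_comm, ← pow_add, ← smul_eq_C_mul, map_smul, ev_X, smul_eq_mul]

theorem Kills.mul {s : ℕ → (ZMod 2)} {g : (ZMod 2)[X]} (h : Kills s g) (p : (ZMod 2)[X]) : ev s (p * g) = 0 := by
  induction p using Polynomial.induction_on' with
  | add p q a b => rw [add_mul, map_add, a, b, add_zero]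
  | monomial n c => rw [← C_mul_X_pow_eq_monomial, mul_assoc, ← smul_eq_C_mul, map_smul, h, smul_zero]

theorem Kills.dvd {s : ℕ → (ZMod 2)} {g p : (ZMod 2)[X]} (h : Kills s g) (hp : g ∣ p) : Kills s p := fun n => by
  obtain ⟨q, rfl⟩ := hp
  rw [mul_comm g, ← mul_assoc, h.mul]

theorem kills_per {s : ℕ → (ZMod 2)} {t : ℕ} : Kills s (X ^ t - 1) ↔ ∀ n, s (n + t) = s n :=
  forall_congr' fun n => by rw [mul_sub, mul_one, ← pow_add, map_sub, ev_X, ev_X, sub_eq_zero]

theorem Kills.list {s : ℕ → (ZMod 2)} {T : List ℕ} (h : Kills s (T.map (X ^ ·)).sum) (n : ℕ) :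
    (T.map fun e => s (n + e)).sum = 0 := by
  rw [← h n]
  clear h
  induction T with
  | nil => simp
  | cons e T ih => simp only [List.map_cons, List.sum_cons, mul_add, map_add, ih, ← pow_add, ev_X]

theorem Kills.zero {s : ℕ → (ZMod 2)} {g : (ZMod 2)[X]} (h : Kills s g) (hm : g.Monic) (hd : g.natDegree = 12)
    (h0 : ∀ i < 12, s i = 0) : s = 0 := funext fun n => by
  have h1 : g ≠ 1 := by rintro rfl; simp at hd
  rw [← ev_X s, ← modByMonic_add_div (X ^ n) g, map_add, mul_comm g, h.mul, add_zero,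
    ← one_mul (X ^ n %ₘ g), ← pow_zero X, ev_sum _ _ _ 12 (hd ▸ natDegree_modByMonic_lt _ hm h1)]
  exact Finset.sum_eq_zero fun i hi => by rw [zero_add, h0 i (mem_range.1 hi), mul_zero]

theorem exists_sol {g : (ZMod 2)[X]} (hm : g.Monic) (hd : g.natDegree = 12) (v : Fin 12 → (ZMod 2)) :
    ∃ s, Kills s g ∧ ∀ i : Fin 12, s i = v i := by
  let l : (ZMod 2)[X] →ₗ[(ZMod 2)] (ZMod 2) := (∑ i : Fin 12, v i • lcoeff (ZMod 2) i) ∘ₗ modByMonicHom g
  have e : ev (fun n => l (X ^ n)) = l := (basisMonomials (ZMod 2)).ext fun i => by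
    rw [coe_basisMonomials]; simp only [monomial_one_right_eq_X_pow, ev_X]
  refine ⟨fun n => l (X ^ n), fun n => ?_, fun i => ?_⟩
  · rw [e]
    simp [l, modByMonicHom, (modByMonic_eq_zero_iff_dvd hm).2 (dvd_mul_left _ _)]
  · have : X ^ i.val %ₘ g = X ^ i.val := (modByMonic_eq_self_iff hm).2 (by
      rw [degree_X_pow, degree_eq_natDegree hm.ne_zero, hd]; exact_mod_cast i.2)
    simp [l, modByMonicHom, this, coeff_X_pow, Fin.val_inj]

end Pool.Agent.H.MP_2c8f22_co
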